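import Pool.Agent.L7h47.BP.Mlw
import Pool.Agent.W335.HR.SM

/-!
Project BP (helper18), part SMW: second moments of the weights for windows (helper47; adapted from
`W335/HR/SM.lean`).
-/

set_option autoImplicit false

open Finset

namespace Pool.Agent.L7h47.BP

open Pool.Agent.H361R2.PP Pool.Agent.W70.HR
open Pool.Agent.L7h18.BP
open Pool.Agent.H410R2.AC (wt GG cfg term WW pos Inj coef)
open Pool.W335.HR (phi uu uu_sum uu_fam phi_disj mem_cfg moment)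

variable {t : ℕ}

open Classical in
lemma corr {δ : ℝ} {X : ℕ} {ϑ θ : ℝ} {B U : Finset ℕ} (hBU : B ⊆ U)
    {S : Fin t → Finset (Finset ℕ)}
    {u : Fin t → ℝ} (hu : ∀ τ, 0 < u τ) (hθ : ∑ τ, u τ ≤ θ / 2)
    (hS : ∀ τ, Fam δ X (u τ) (S τ)) (h0 : ∀ τ, ∅ ∉ S τ)
    (hd : ∀ τ τ', τ ≠ τ' → Disjoint (S τ) (S τ')) (hG : ∀ τ, 1 ≤ GG (S τ))
    {ψ : ℕ → Finset (Finset ℕ)} (hψ : ∀ a ∈ B, ψ a = {∅}) {v : ℕ → ℝ}
    (hv : ∀ a ∈ U, 0 ≤ v a ∧ Fam δ X (v a) (ψ a)) (hθ0 : 0 < θ)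
    (hvs : ∑ a ∈ U, v a ≤ ϑ / 2 - 2 * θ)
    (T : Finset ℕ) (w : ℕ → ℝ) (M e : ℝ)
    (H : ∀ (F F' : ℕ → Finset (Finset ℕ)) (u u' : ℕ → ℝ),
      (∀ a ∈ U, 0 ≤ u a ∧ Fam δ X (u a) (F a)) → (∀ a ∈ U, 0 ≤ u' a ∧ Fam δ X (u' a) (F' a)) →
      ∑ a ∈ U, (u a + u' a) ≤ ϑ - 2 * θ →
      ((∀ a ∈ U, F a = F' a) ∨ ∃ a ∈ U, Disjoint (F a) (F' a)) →
      |∑ n ∈ T, w n * ((∏ a ∈ U, FS (F a) a n) * ∏ a ∈ U, FS (F' a) a n) -
        (if ∀ a ∈ U, F a = F' a then M * ∏ a ∈ U, GG (F a) else 0)| ≤ e) :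
    ∀ σ ∈ cfg t B, ∀ σ' ∈ cfg t B,
      |∑ n ∈ T, w n * ((∏ a ∈ U, FS (phi S ψ σ a) a n) * ∏ a ∈ U, FS (phi S ψ σ' a) a n) -
        (if σ = σ' then M * ∏ a ∈ U, GG (phi S ψ σ a) else 0)| ≤ e := by
  intro σ hσ σ' hσ'
  have hsum : ∑ a ∈ U, (uu u v σ a + uu u v σ' a) ≤ ϑ - 2 * θ := by
    rw [Finset.sum_add_distrib]
    have h1 := uu_sum (U := U) hu v σ
    have h2 := uu_sum (U := U) hu v σ'
    linarith
  have hf := uu_fam (B := B) hu hS hv hσ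
  have hf' := uu_fam (B := B) hu hS hv hσ'
  by_cases h : σ = σ'
  · have h1 := H _ _ _ _ hf hf' hsum (Or.inl (fun a _ => by rw [h]))
    rw [if_pos (fun a _ => by rw [h])] at h1
    rw [if_pos h]
    exact h1
  · obtain ⟨a, ha, h3, h4⟩ : ∃ a ∈ U, Disjoint (phi S ψ σ a) (phi S ψ σ' a) ∧
        phi S ψ σ a ≠ phi S ψ σ' a := by
      obtain ⟨τ, hτ⟩ : ∃ τ, σ τ ≠ σ' τ := by
        by_contra hcon
        push Not at hcon
        exact h (funext hcon)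
      cases h1 : σ τ with
      | some a =>
        exact ⟨a, hBU ((mem_cfg hσ).1 _ _ h1), phi_disj h0 hd hG hψ hσ hσ' h1
          (fun h2 => hτ (h1.trans h2.symm))⟩
      | none =>
        cases h2 : σ' τ with
        | some a =>
          have := phi_disj h0 hd hG hψ hσ' hσ h2 (by rw [h1]; simp)
          exact ⟨a, hBU ((mem_cfg hσ').1 _ _ h2), this.1.symm, this.2.symm⟩
        | none => exact absurd (h1.trans h2.symm) hτ
    have h1 := H _ _ _ _ hf hf' hsum (Or.inr ⟨a, ha, h3⟩)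
    rw [if_neg (fun h5 => h4 (h5 a ha))] at h1
    rw [if_neg h]
    exact h1

theorem smw_of : S_MLW → S_SMW := by
  classical
  intro hML N m t u β Λ ϑ θ s c₀ huβ hβ1 hu hΛ hϑ hϑ1 hθ0 hθ1 hs hc₀
  have hN : (0 : ℝ) < ((N : ℝ) + 1) ^ (2 * t) := by positivity
  obtain ⟨K, A, δ₀, hδ₀, hML⟩ := hML N (m * (2 * t + 4)) Λ ϑ θ (s / ((N : ℝ) + 1) ^ (2 * t)) c₀ hΛ
    hϑ hϑ1 hθ0 hθ1 (div_pos hs hN) hc₀
  refine ⟨K, A, δ₀, hδ₀, fun δ hδ hδ' => ?_⟩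
  obtain ⟨X₀, hX₀⟩ := hML δ hδ hδ'
  refine ⟨max X₀ 1, fun X hX ω hyp b hb S hS h0 hd hG γ hγ hγm U hU hUN B hBU c hc => ?_⟩
  have hX1 : 1 ≤ X := (le_max_right _ _).trans hX
  have key := hX₀ X ((le_max_left _ _).trans hX) ω hyp b hb U hU hUN
  have huτ : ∀ τ, 0 < u τ := fun τ => (huβ τ).1
  have hβτ : ∀ τ, 0 < β τ := fun τ => (huβ τ).2
  -- the error
  have herr : ∀ M : ℝ, 0 ≤ s / ((N : ℝ) + 1) ^ (2 * t) * δ ^ (m * (2 * t + 4)) * M →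
      ((N : ℝ) + 1) ^ (2 * t) * (1 + γ) ^ (2 * t + 4) *
        (s / ((N : ℝ) + 1) ^ (2 * t) * δ ^ (m * (2 * t + 4)) * M) ≤ s * M := by
    intro M hM
    have hM' : 0 ≤ s * M := by
      have h1 : 0 < s / ((N : ℝ) + 1) ^ (2 * t) * δ ^ (m * (2 * t + 4)) := by positivity
      have h2 : 0 ≤ M := by
        by_contra hcon
        push Not at hcon
        nlinarith [mul_neg_of_pos_of_neg h1 hcon]
      positivity
    have h1 : (1 + γ) ^ (2 * t + 4) * δ ^ (m * (2 * t + 4)) ≤ 1 := by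
      have h2 : (1 + γ) ^ (2 * t + 4) ≤ ((1 / δ) ^ m) ^ (2 * t + 4) :=
        pow_le_pow_left₀ (by linarith) hγm _
      calc (1 + γ) ^ (2 * t + 4) * δ ^ (m * (2 * t + 4))
          ≤ ((1 / δ) ^ m) ^ (2 * t + 4) * δ ^ (m * (2 * t + 4)) := by gcongr
        _ = 1 := by
            rw [← pow_mul, ← mul_pow, one_div, inv_mul_cancel₀ hδ.ne', one_pow]
    calc ((N : ℝ) + 1) ^ (2 * t) * (1 + γ) ^ (2 * t + 4) *
        (s / ((N : ℝ) + 1) ^ (2 * t) * δ ^ (m * (2 * t + 4)) * M)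
        = (1 + γ) ^ (2 * t + 4) * δ ^ (m * (2 * t + 4)) * (s * M) := by
          field_simp
      _ ≤ 1 * (s * M) := by gcongr
      _ = s * M := one_mul _
  have hF1 : ∀ n a, FS {∅} a n = 1 := by
    intro n a
    unfold FS Pool.Agent.H410R2.AC.wt
    simp
  have hG1 : GG {∅} = 1 := by
    unfold GG Pool.Agent.H410R2.AC.wt
    simp
  have hFam0 : Fam δ X 0 {∅} := by
    intro R hR
    rw [Finset.mem_singleton] at hR
    subst hR
    simp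
  -- the general statement
  have gen : ∀ (T : Finset ℕ) (M : ℝ) (ψ : ℕ → Finset (Finset ℕ)) (v : ℕ → ℝ),
      (∀ a ∈ B, ψ a = {∅}) → (∀ a ∈ U, 0 ≤ v a ∧ Fam δ X (v a) (ψ a)) →
      ∑ a ∈ U, v a ≤ ϑ / 2 - 2 * θ →
      (∀ (F F' : ℕ → Finset (Finset ℕ)) (u u' : ℕ → ℝ),
      (∀ a ∈ U, 0 ≤ u a ∧ Fam δ X (u a) (F a)) → (∀ a ∈ U, 0 ≤ u' a ∧ Fam δ X (u' a) (F' a)) →
      ∑ a ∈ U, (u a + u' a) ≤ ϑ - 2 * θ →
      ((∀ a ∈ U, F a = F' a) ∨ ∃ a ∈ U, Disjoint (F a) (F' a)) →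
      |∑ n ∈ T, rU δ X U n * ((∏ a ∈ U, FS (F a) a n) * ∏ a ∈ U, FS (F' a) a n) -
        (if ∀ a ∈ U, F a = F' a then M * ∏ a ∈ U, GG (F a) else 0)| ≤
          s / ((N : ℝ) + 1) ^ (2 * t) * δ ^ (m * (2 * t + 4)) * M) →
      |∑ n ∈ T, rU δ X U n * ((∏ a ∈ U, FS (ψ a) a n) * WW B c (xh γ β S n)) ^ 2 -
        M * ((∏ a ∈ U, GG (ψ a)) * ∑ σ ∈ cfg t B, c σ ^ 2 * term (qh γ β S) σ)| ≤ s * M := by
    intro T M ψ v hψ hv hvs H
    have h1 := corr hBU huτ hu hS h0 hd hG hψ hv hθ0 hvs T (rU δ X U) M _ H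
    have h2 := moment hBU hUN hG hβτ hβ1 hγ hc hψ T (rU δ X U) M _ h1
    refine h2.trans (herr M ?_)
    have h3 : (fun _ => none : Fin t → Option ℕ) ∈ cfg t B := by
      unfold Pool.Agent.H410R2.AC.cfg
      rw [Finset.mem_filter, Fintype.mem_piFinset]
      exact ⟨fun τ => by simp, fun τ τ' a h => by simp at h⟩
    exact (abs_nonneg _).trans (h1 _ h3 _ h3)
  have hv0 : ∑ a ∈ U, (fun _ : ℕ => (0 : ℝ)) a ≤ ϑ / 2 - 2 * θ := by
    simp only [Finset.sum_const_zero]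
    linarith
  refine ⟨?_, fun a₀ ha₀ => ⟨?_, fun a₁ ha₁ => ?_⟩⟩
  · have h1 := gen (WI ω X b) (WOm ω δ X U.card) (fun _ => {∅}) (fun _ => 0) (fun _ _ => rfl)
      (fun _ _ => ⟨le_rfl, hFam0⟩) hv0 (fun F F' u u' a1 a2 a3 a4 => (key F F' u u' a1 a2 a3 a4).1)
    simp only [hF1, hG1, Finset.prod_const_one, one_mul] at h1
    exact h1
  · have h1 := gen (WP ω X b a₀) (WOmP ω δ X U.card) (fun _ => {∅}) (fun _ => 0) (fun _ _ => rfl)
      (fun _ _ => ⟨le_rfl, hFam0⟩) hv0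
      (fun F F' u u' a1 a2 a3 a4 => (key F F' u u' a1 a2 a3 a4).2 a₀ ha₀)
    simp only [hF1, hG1, Finset.prod_const_one, one_mul] at h1
    exact h1
  · have ha₁U : a₁ ∈ U := (Finset.mem_sdiff.1 ha₁).1
    have ha₁B : a₁ ∉ B := (Finset.mem_sdiff.1 ha₁).2
    have hX0 : (0 : ℝ) < X := by exact_mod_cast hX1
    have hFam1 : Fam δ X (ϑ / 2 - 2 * θ) (Sp ϑ δ θ X) := by
      intro R hR
      unfold Sp at hR
      rw [Finset.mem_filter, Finset.mem_powerset] at hR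
      refine ⟨hR.1, ?_⟩
      have hpos : 0 < ∏ p ∈ R, (p : ℝ) := by
        refine Finset.prod_pos fun p hp => ?_
        have h2 := hR.1 hp
        unfold P2 at h2
        rw [Finset.mem_filter] at h2
        exact_mod_cast h2.2.1.pos
      have h3 := Real.log_le_log hpos hR.2
      rwa [Real.log_rpow hX0] at h3
    have h1 := gen (WP ω X b a₀) (WOmP ω δ X U.card) (fun a => if a = a₁ then Sp ϑ δ θ X else {∅})
      (fun a => if a = a₁ then ϑ / 2 - 2 * θ else 0)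
      (fun a ha => by
        rw [if_neg]
        rintro rfl
        exact ha₁B ha)
      (fun a _ => by
        split_ifs
        · exact ⟨by linarith, hFam1⟩
        · exact ⟨le_rfl, hFam0⟩)
      (by
        rw [Finset.sum_ite_eq' U a₁, if_pos ha₁U])
      (fun F F' u u' a1 a2 a3 a4 => (key F F' u u' a1 a2 a3 a4).2 a₀ ha₀)
    have e1 : ∀ n, ∏ a ∈ U, FS (if a = a₁ then Sp ϑ δ θ X else {∅}) a n = FS (Sp ϑ δ θ X) a₁ n := by
      intro n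
      rw [Finset.prod_eq_single_of_mem a₁ ha₁U]
      · rw [if_pos rfl]
      · intro a _ hne
        rw [if_neg hne, hF1]
    have e2 : ∏ a ∈ U, GG (if a = a₁ then Sp ϑ δ θ X else {∅}) = GG (Sp ϑ δ θ X) := by
      rw [Finset.prod_eq_single_of_mem a₁ ha₁U]
      · rw [if_pos rfl]
      · intro a _ hne
        rw [if_neg hne, hG1]
    simp only [e1, e2] at h1
    exact h1

/-- **SMW** -/
theorem s_SMW : S_SMW := smw_of s_MLW

end Pool.Agent.L7h47.BP
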